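import Pool.Agent.H44.AC.Fin

/-!
# MP_5280cd_an: affine skew products and stable accessibility

`A × B` is a partially hyperbolic automorphism of the torus `T^(d+k)` with `A` hyperbolic and with centre `{0} × ℝ^k`; no
further condition on `B`.  The affine skew products `f_h (x, y) = (A x, B y + h x)`, `h : T^d → T^k` of class `C^1`, are
partially hyperbolic and preserve Lebesgue measure; if `f_h` is accessible, then so is every partially hyperbolic
diffeomorphism which is `C^1` close to it; and there is a real analytic `ψ` such that for every `h` all but at most `k`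
of the maps `f_(h + t ψ)`, `t ∈ ℝ`, are stably accessible in this sense.
-/

set_option autoImplicit false

namespace Pool.Agent.Results.MP_5280cd_an.AffineSkewProducts

open MeasureTheory Pool.Agent.H44.AC.Gen

theorem result {d k : ℕ} (a : Auto (Fin d → ℝ) (Fin k → ℝ))
    (ha : a.IsPH (intLattice d) (intLattice k)) :
    (∀ h, IsMap (intLattice d) (intLattice k) h → a.Good (intLattice d) (intLattice k) h ∧
      MeasurePreserving (a.skew h)) ∧
    ∃ ψ, IsAnalytic (intLattice d) ψ ∧ ∀ h, IsMap (intLattice d) (intLattice k) h →
      {t : ℝ | ¬ a.Stable (intLattice d) (intLattice k) (h + t • ψ)}.encard ≤ k :=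
  Pool.Agent.H44.AC.final a ha

end Pool.Agent.Results.MP_5280cd_an.AffineSkewProducts
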